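import Pool.Agent.H90.SRC.Targets
import Pool.Agent.H66.SLP.Easy

set_option autoImplicit false

open Finset Pool.Agent.H66.SLP Pool.Agent.H90.SRC

namespace Pool.Agent.H69.SRC

open scoped Classical in
theorem pf_PIE : T_PIE := by
  intro w α β T hαβ hT hw
  have hmono : ∀ x y, x ≤ y → α ≤ x → wt w α x ≤ wt w α y := by
    intro x y hxy hx
    have h1 := wt_add w hx hxy
    have h2 : 0 ≤ wt w x y := by
      unfold wt
      exact Finset.sum_nonneg fun i _ => (hw i).1
    linarith
  have hT0 : (0 : ℝ) < T := by exact_mod_cast hT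
  have hW : 0 ≤ wt w α β := by
    have := hmono α β hαβ.le le_rfl
    rwa [wt_self] at this
  let P : ℕ → ℕ → Prop := fun j x =>
    (α ≤ x ∧ j < T ∧ (j : ℝ) * wt w α β / T ≤ wt w α x) ∨ x = β
  have hex : ∀ j, ∃ x, P j x := fun j => ⟨β, Or.inr rfl⟩
  let c : ℕ → ℕ := fun j => Nat.find (hex j)
  have hspec : ∀ j, P j (c j) := fun j => Nat.find_spec (hex j)
  have hle : ∀ j x, P j x → c j ≤ x := fun j x h => Nat.find_min' (hex j) h
  have hα : ∀ j, α ≤ c j := by
    intro j
    rcases hspec j with h | h
    · exact h.1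
    · rw [h]; exact hαβ.le
  have hβ : ∀ j, c j ≤ β := fun j => hle j β (Or.inr rfl)
  have hcm : Monotone c := by
    intro j k hjk
    apply hle
    rcases hspec k with h | h
    · refine Or.inl ⟨h.1, lt_of_le_of_lt hjk h.2.1, le_trans ?_ h.2.2⟩
      have hjk' : (j : ℝ) ≤ k := by exact_mod_cast hjk
      gcongr
    · exact Or.inr h
  have h0 : c 0 = α := by
    refine le_antisymm (hle 0 α (Or.inl ⟨le_rfl, by omega, ?_⟩)) (hα 0)
    rw [wt_self]; simp
  have hTT : c T = β := by
    rcases hspec T with h | h
    · exact absurd h.2.1 (lt_irrefl _)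
    · exact h
  refine ⟨c, hcm, h0, hTT, ?_⟩
  intro j hj
  have hadd := wt_add w (hα j) (hcm (Nat.le_succ j))
  have hlow : (j : ℝ) * wt w α β / T ≤ wt w α (c j) := by
    rcases hspec j with h | h
    · exact h.2.2
    · rw [h, div_le_iff₀ hT0, mul_comm]
      have hj' : (j : ℝ) ≤ T := by exact_mod_cast hj.le
      exact mul_le_mul_of_nonneg_left hj' hW
  have hup : wt w α (c (j + 1)) ≤ ((j : ℝ) + 1) * wt w α β / T + 2 := by
    rcases Nat.eq_or_lt_of_le (hα (j + 1)) with h | h
    · rw [← h, wt_self]
      positivity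
    · obtain ⟨x, hx⟩ : ∃ x, c (j + 1) = x + 1 := ⟨c (j + 1) - 1, by omega⟩
      have hnot : ¬ P (j + 1) x := by
        intro hP
        have := hle (j + 1) x hP
        omega
      by_cases hjT : j + 1 < T
      · have h3 : wt w α x < ((j : ℝ) + 1) * wt w α β / T := by
          by_contra hcon
          push Not at hcon
          apply hnot
          refine Or.inl ⟨by omega, hjT, ?_⟩
          push_cast
          exact hcon
        have h4 := wt_add w (show α ≤ x by omega) (Nat.le_succ x)
        have h5 : wt w x (x + 1) = w x := by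
          unfold wt
          simp
        rw [hx, ← h4, h5]
        linarith [(hw x).2]
      · have hjT' : j + 1 = T := by omega
        have h6 := hmono (c (j + 1)) β (hβ _) (hα _)
        have h7 : ((j : ℝ) + 1) * wt w α β / T = wt w α β := by
          have : (T : ℝ) = (j : ℝ) + 1 := by rw [← hjT']; push_cast; ring
          rw [this] at hT0 ⊢
          field_simp
        rw [h7]
        linarith
  have h8 : ((j : ℝ) + 1) * wt w α β / T = (j : ℝ) * wt w α β / T + wt w α β / T := by ring
  linarith

end Pool.Agent.H69.SRC
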